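import Pool.Agent.H66.AV.TF
import Pool.Agent.H85.OQ.CH2
import Pool.Agent.H30.OQ.ERR

/-!
# Board avh_modules (MP_0f8dca_lc), row TBJ: a formula is rarely sensitive to many rows

Adapted from row TBK of board iq_modules (`Pool/Agent/H23/IQ/TBK.lean`).
-/

set_option autoImplicit false

namespace Pool.Agent.H62.AVH

open Finset Pool.Agent.H6.NB Pool.Agent.H70.OQ Pool.Agent.H66.IQ Pool.Agent.H66.AV

/-- the error of the table lemma for exponentially large formulas -/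
theorem tbj_err {k n m w : ℕ} (hm : m = 2 ^ (n / 6)) (hw : w = 8 * ((k + 3) * (m + 1)))
    (hn : 6 * (2 * k + 24) ≤ n) :
    errT (Fin n → Bool) (Ys n) (2 ^ (m + 1)) w (2 ^ n) (1 / (64 * w)) k ≤ 1 / 4 ^ (2 * m + 2) := by
  have hm1 : 1 ≤ m := by rw [hm]; exact Nat.one_le_two_pow
  have hv : 3 * (m + 1) ≤ (k + 3) * (m + 1) := Nat.mul_le_mul_right _ (by omega)
  have hw0 : 0 < w := by omega
  have hwR : (0 : ℝ) < w := by exact_mod_cast hw0
  have h4 : (4 : ℕ) ^ (2 * m + 2) = 2 ^ (4 * m + 4) := by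
    rw [show 4 * m + 4 = 2 * (2 * m + 2) by ring, pow_mul]
    norm_num
  unfold errT
  rw [Finset.sum_add_distrib]
  -- part 1
  have p1 : 2 / (1 / (64 * (w : ℝ))) * (5 / 2 ^ (w + 1)) ≤ (1 / 4) * (1 / 4 ^ (2 * m + 2)) := by
    have e1 : 1280 * w * 4 ^ (2 * m + 2) ≤ 2 ^ w := by
      have a1 : (k + 3) * (m + 1) ≤ 2 ^ ((k + 3) * (m + 1)) := Nat.lt_two_pow_self.le
      have a2 : w ≤ 2 ^ 3 * 2 ^ ((k + 3) * (m + 1)) := by
        rw [hw]
        exact Nat.mul_le_mul (by norm_num) a1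
      calc 1280 * w * 4 ^ (2 * m + 2) ≤ 2 ^ 11 * (2 ^ 3 * 2 ^ ((k + 3) * (m + 1))) * 2 ^ (4 * m + 4) := by
            rw [h4]
            apply Nat.mul_le_mul_right
            exact Nat.mul_le_mul (by norm_num) a2
        _ = 2 ^ (11 + (3 + (k + 3) * (m + 1)) + (4 * m + 4)) := by
            rw [pow_add 2 (11 + (3 + (k + 3) * (m + 1))), pow_add 2 11, pow_add 2 3]
        _ ≤ 2 ^ w := Nat.pow_le_pow_right (by norm_num) (by omega)
    have e2 : (1280 * (w : ℝ) * 4 ^ (2 * m + 2)) ≤ 2 ^ w := by exact_mod_cast e1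
    have e3 : 2 / (1 / (64 * (w : ℝ))) * (5 / 2 ^ (w + 1)) = 320 * w / 2 ^ w := by
      rw [pow_succ]
      field_simp
      ring
    rw [e3]
    have e4 : (1 / 4 : ℝ) * (1 / 4 ^ (2 * m + 2)) = 1 / (4 * 4 ^ (2 * m + 2)) := by
      rw [one_div_mul_one_div]
    rw [e4, div_le_div_iff₀ (by positivity) (by positivity)]
    linarith
  have p2 : ∑ i ∈ range k, ((((2 ^ (m + 1) : ℕ) : ℝ) + 1) ^ (i + 1) * (5 / 2 ^ (w + 1))) ≤
      (1 / 4) * (1 / 4 ^ (2 * m + 2)) := by
    have b1 : ∀ i ∈ range k, ((((2 ^ (m + 1) : ℕ) : ℝ) + 1) ^ (i + 1) * (5 / 2 ^ (w + 1))) ≤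
        2 ^ ((m + 2) * k) * (5 / 2 ^ (w + 1)) := by
      intro i hi
      have hid : i < k := mem_range.mp hi
      apply mul_le_mul_of_nonneg_right _ (by positivity)
      have c1 : (((2 ^ (m + 1) : ℕ) : ℝ) + 1) ≤ 2 ^ (m + 2) := by
        push_cast
        have : (1 : ℝ) ≤ 2 ^ (m + 1) := one_le_pow₀ (by norm_num)
        rw [show m + 2 = (m + 1) + 1 by ring, pow_succ 2 (m + 1)]
        linarith
      calc (((2 ^ (m + 1) : ℕ) : ℝ) + 1) ^ (i + 1) ≤ (2 ^ (m + 2)) ^ (i + 1) :=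
            pow_le_pow_left₀ (by positivity) c1 _
        _ = 2 ^ ((m + 2) * (i + 1)) := by rw [pow_mul]
        _ ≤ 2 ^ ((m + 2) * k) := by
            apply pow_le_pow_right₀ (by norm_num)
            exact Nat.mul_le_mul_left _ hid
    refine (Finset.sum_le_sum b1).trans ?_
    rw [Finset.sum_const, card_range, nsmul_eq_mul]
    have e1 : 20 * k * 2 ^ ((m + 2) * k) * 4 ^ (2 * m + 2) ≤ 2 ^ (w + 1) := by
      have a1 : k ≤ 2 ^ k := (Nat.lt_two_pow_self (n := k)).le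
      have a3 : 8 * ((k + 3) * (m + 1)) = (m + 2) * k + (7 * (m * k) + 6 * k) + 24 * m + 24 := by
        ring
      calc 20 * k * 2 ^ ((m + 2) * k) * 4 ^ (2 * m + 2) ≤
            2 ^ 5 * 2 ^ k * 2 ^ ((m + 2) * k) * 2 ^ (4 * m + 4) := by
            rw [h4]
            apply Nat.mul_le_mul_right
            apply Nat.mul_le_mul_right
            exact Nat.mul_le_mul (by norm_num) a1
        _ = 2 ^ (5 + k + (m + 2) * k + (4 * m + 4)) := by
            rw [pow_add 2 (5 + k + (m + 2) * k), pow_add 2 (5 + k), pow_add 2 5]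
        _ ≤ 2 ^ (w + 1) := Nat.pow_le_pow_right (by norm_num) (by rw [hw, a3]; omega)
    have e2 : (20 * (k : ℝ) * 2 ^ ((m + 2) * k) * 4 ^ (2 * m + 2)) ≤ 2 ^ (w + 1) := by
      exact_mod_cast e1
    have e4 : (1 / 4 : ℝ) * (1 / 4 ^ (2 * m + 2)) = 1 / (4 * 4 ^ (2 * m + 2)) := by
      rw [one_div_mul_one_div]
    have e5 : (k : ℝ) * (2 ^ ((m + 2) * k) * (5 / 2 ^ (w + 1))) =
        5 * k * 2 ^ ((m + 2) * k) / 2 ^ (w + 1) := by ring
    rw [e4, e5, div_le_div_iff₀ (by positivity) (by positivity)]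
    linarith
  have p3 := Pool.Agent.H30.OQ.ERR.part3 k n w (2 * m + 2) hw0 (by
    obtain ⟨a, ha⟩ : ∃ a, a = n / 6 := ⟨_, rfl⟩
    rw [← ha] at hm
    have ha1 : 2 * k + 24 ≤ a := by omega
    have ha2 : a + 1 ≤ m := by rw [hm]; exact Nat.lt_two_pow_self
    have hnm : n ≤ 6 * m := by omega
    have c1 : 2 ^ (2 * k + 18) ≤ m := by
      rw [hm]
      exact Nat.pow_le_pow_right (by norm_num) (by omega)
    have c2 : k + 3 ≤ 2 ^ (k + 3) := Nat.lt_two_pow_self.le
    have c3 : 16 + k ≤ 2 ^ (k + 4) := by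
      have : k + 1 ≤ 2 ^ k := Nat.lt_two_pow_self
      rw [pow_add]
      omega
    have c4 : 2 * (2 * m + 2) + 2 + k + 2 ^ (k + 1) * n ≤ 2 ^ (k + 5) * m := by
      have d1 : 2 ^ (k + 1) * n ≤ 2 ^ (k + 1) * (6 * m) := Nat.mul_le_mul_left _ hnm
      have d2 : 2 ^ (k + 1) * (6 * m) ≤ 2 ^ (k + 4) * m := by
        rw [show 2 ^ (k + 4) * m = 2 ^ (k + 1) * (8 * m) by ring]
        exact Nat.mul_le_mul_left _ (by omega)
      have d3 : 2 ^ (k + 5) * m = 2 ^ (k + 4) * m + 2 ^ (k + 4) * m := by ring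
      have d4 : (16 + k) * m ≤ 2 ^ (k + 4) * m := Nat.mul_le_mul_right _ c3
      have d5 : 12 + k ≤ (12 + k) * m := Nat.le_mul_of_pos_right _ (by omega)
      have d6 : (16 + k) * m = 4 * m + (12 + k) * m := by ring
      omega
    have c5 : m ^ 4 ≤ 2 ^ n := by
      rw [hm, ← pow_mul]
      exact Nat.pow_le_pow_right (by norm_num) (by omega)
    calc 64 * w * (2 * (2 * m + 2) + 2 + k + 2 ^ (k + 1) * n) ≤
          64 * (8 * (2 ^ (k + 3) * (2 * m))) * (2 ^ (k + 5) * m) := by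
          rw [hw]
          refine Nat.mul_le_mul (Nat.mul_le_mul_left _ (Nat.mul_le_mul_left _
            (Nat.mul_le_mul c2 (by omega)))) c4
      _ = 2 ^ (2 * k + 18) * (m * m) := by ring
      _ ≤ m * (m * m) := Nat.mul_le_mul_right _ c1
      _ ≤ m * (m * m) * m := Nat.le_mul_of_pos_right _ (by omega)
      _ = m ^ 4 := by ring
      _ ≤ 2 ^ n := c5)
  have hpos : (0 : ℝ) < 1 / 4 ^ (2 * m + 2) := by positivity
  linarith

theorem pf_TBJ (hTBL : Pool.Agent.H70.OQ.T_TBL) : T_TBJ := by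
  classical
  intro k
  rcases k with _ | k
  · refine ⟨12, fun n hn => ⟨2 ^ (n / 6) + 1, ?_, fun f hf => ?_⟩⟩
    · obtain ⟨a, ha⟩ : ∃ a, a = n / 6 := ⟨_, rfl⟩
      rw [← ha]
      have h1 : 2 ^ a + 1 ≤ 2 ^ (a + 1) := by
        have : 1 ≤ 2 ^ a := Nat.one_le_two_pow
        rw [pow_succ]
        omega
      calc 2 ^ (n / 3 + 1) * (2 ^ a * (2 ^ a + 1)) ≤ 2 ^ (n / 3 + 1) * (2 ^ a * 2 ^ (a + 1)) :=
            Nat.mul_le_mul_left _ (Nat.mul_le_mul_left _ h1)
        _ = 2 ^ (n / 3 + 1 + (a + (a + 1))) := by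
            rw [pow_add 2 (n / 3 + 1) (a + (a + 1)), pow_add 2 a (a + 1)]
        _ ≤ 2 ^ n := Nat.pow_le_pow_right (by norm_num) (by omega)
    · obtain ⟨T, hT, hTf⟩ := hf
      have h0 : (univ.filter fun H : Hid (Fin n → Bool) (Ys n) 0 =>
          2 ^ (n / 6) + 1 < (senT 0 f H).card) = ∅ := by
        refine Finset.filter_eq_empty_iff.2 fun H _ => ?_
        rw [not_lt]
        obtain ⟨Q, hQ, hQ2⟩ := Pool.Agent.H85.OQ.dtp _ T (tabT 0 H)
        refine le_trans (Finset.card_le_card (t := Q) fun x hx => ?_) (hQ.trans hT)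
        by_contra hxQ
        refine (Finset.mem_filter.1 (show x ∈ univ.filter (fun x : Fin n → Bool =>
          f (tabU 0 H x) ≠ f (tabT 0 H)) from hx)).2 ?_
        rw [← hTf, ← hTf]
        refine hQ2 _ fun v hv => ?_
        have hne : v ≠ x := fun h => hxQ (h ▸ hv)
        change (!decide (v = x)) = true
        rw [decide_eq_false hne]
        rfl
      rw [h0]
      simp
  · refine ⟨6 * (2 * k + 24), fun n hn => ?_⟩
    obtain ⟨m, hm⟩ : ∃ m, m = 2 ^ (n / 6) := ⟨_, rfl⟩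
    obtain ⟨w, hw⟩ : ∃ w, w = 8 * ((k + 3) * (m + 1)) := ⟨_, rfl⟩
    have hm1 : 1 ≤ m := by rw [hm]; exact Nat.one_le_two_pow
    have hv : 3 * (m + 1) ≤ (k + 3) * (m + 1) := Nat.mul_le_mul_right _ (by omega)
    have hw1 : 1 ≤ w := by omega
    have hw0 : (0 : ℝ) < w := by exact_mod_cast hw1
    rw [← hm]
    refine ⟨128 * w ^ 2, ?_, fun f hf => ?_⟩
    · have c2 : k + 3 ≤ 2 ^ (k + 3) := Nat.lt_two_pow_self.le
      have c3 : w ≤ 8 * (2 ^ (k + 3) * (2 * m)) := by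
        rw [hw]
        exact Nat.mul_le_mul_left _ (Nat.mul_le_mul c2 (by omega))
      calc 2 ^ (n / 3 + 1) * (m * (128 * w ^ 2)) ≤
            2 ^ (n / 3 + 1) * (m * (128 * (8 * (2 ^ (k + 3) * (2 * m))) ^ 2)) := by
            gcongr
        _ = 2 ^ (n / 3 + 1) * (2 ^ (2 * k + 21) * m ^ 3) := by ring
        _ = 2 ^ (n / 3 + 1 + (2 * k + 21 + n / 6 * 3)) := by
            rw [hm, ← pow_mul, pow_add 2 (n / 3 + 1), pow_add 2 (2 * k + 21)]
        _ ≤ 2 ^ n := Nat.pow_le_pow_right (by norm_num) (by omega)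
    · have hTBL := hTBL (Fin n → Bool) (Ys n) k (2 ^ (m + 1)) (m + 1) w (2 ^ n) (128 * w ^ 2)
        (1 / (64 * w)) hw1 (by omega) (by positivity) (by rw [mul_one_div, div_self (by positivity)])
        (by push_cast; rw [mul_one_div, le_div_iff₀ (by positivity)]; exact le_of_eq (by ring))
        Nat.one_le_two_pow
        (fun i _ => by
          have e1 : Fintype.card (Node (Fin n → Bool) (Ys n) i) = 2 ^ ((2 ^ (i + 1) - 1) * n) :=
            card_Nn n i
          rw [e1, Fintype.card_fun, Fintype.card_bool, Fintype.card_fin, ← pow_add]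
          refine Nat.pow_le_pow_right (by norm_num) (le_of_eq ?_)
          have : 1 ≤ 2 ^ (i + 1) := Nat.one_le_two_pow
          obtain ⟨m, hm⟩ : ∃ m, 2 ^ (i + 1) = m + 1 := ⟨2 ^ (i + 1) - 1, by omega⟩
          rw [hm]
          simp only [Nat.add_sub_cancel]
          ring) f hf
      have herr := tbj_err hm hw hn
      set N : ℕ := Fintype.card (Hid (Fin n → Bool) (Ys n) (k + 1)) with hN
      set B : ℕ := (univ.filter fun H : Hid (Fin n → Bool) (Ys n) (k + 1) =>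
        128 * w ^ 2 < (senT (k + 1) f H).card).card with hB
      have h6 : (B : ℝ) ≤ 1 / 4 ^ (2 * m + 2) * N :=
        hTBL.trans (mul_le_mul_of_nonneg_right herr (by positivity))
      have hnm : n ≤ 2 * m + 3 := by
        obtain ⟨a, ha⟩ : ∃ a, a = n / 6 := ⟨_, rfl⟩
        rw [← ha] at hm
        have ha1 : 24 ≤ a := by omega
        have ha2 : 4 * (a - 1) ≤ m := by
          have : a - 2 < 2 ^ (a - 2) := Nat.lt_two_pow_self
          have e : (2 : ℕ) ^ a = 4 * 2 ^ (a - 2) := by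
            rw [show a = 2 + (a - 2) by omega, pow_add]
            norm_num
          rw [hm, e]
          omega
        omega
      have h8 : (0 : ℝ) < 2 ^ (2 * m + n + 1) := by positivity
      have h9 : (0 : ℝ) ≤ N := Nat.cast_nonneg N
      have h7 : (2 : ℝ) ^ (2 * m + n + 1) ≤ 4 ^ (2 * m + 2) := by
        rw [show (4 : ℝ) = 2 ^ 2 by norm_num, ← pow_mul]
        exact pow_le_pow_right₀ (by norm_num) (by omega)
      have h10 : (2 : ℝ) ^ (2 * m + n + 1) * B ≤ N := by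
        have h11 := mul_le_mul_of_nonneg_left h6 h8.le
        refine h11.trans ?_
        rw [← mul_assoc, mul_one_div]
        have h12 : (2 : ℝ) ^ (2 * m + n + 1) / 4 ^ (2 * m + 2) ≤ 1 :=
          (div_le_one (by positivity)).2 h7
        calc (2 : ℝ) ^ (2 * m + n + 1) / 4 ^ (2 * m + 2) * N ≤ 1 * N :=
              mul_le_mul_of_nonneg_right h12 h9
          _ = N := one_mul _
      exact_mod_cast h10

end Pool.Agent.H62.AVH
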